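import Pool.Agent.Q184.PS.UP

/-!
# JOB PS-AB (helper184)
-/

set_option autoImplicit false

open Finset Polynomial ComplexConjugate
open Pool.Agent.H341R2.Sharp (Mon mem_Mon)

namespace Pool.Agent.Q184.PS

open Pool.Agent.Q284.PS

section

variable {F : Type} [Field F]

theorem mem_PD [Fintype F] {k : ℕ} (hk : 1 ≤ k) {P : F[X]} :
    P ∈ PD F k ↔ P.Monic ∧ Irreducible P ∧ P.natDegree ∣ k := by
  classical
  unfold PD
  rw [Finset.mem_filter, Finset.mem_biUnion]
  constructor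
  · rintro ⟨⟨n, hn, hd⟩, h1, h2⟩
    exact ⟨(mem_Mon.1 hd).1, h1, h2⟩
  · rintro ⟨h1, h2, h3⟩
    exact ⟨⟨P.natDegree, Finset.mem_range.2 (Nat.lt_succ_of_le (Nat.le_of_dvd hk h3)),
      mem_Mon.2 ⟨h1, rfl⟩⟩, h2, h3⟩

/-- Cauchy-Schwarz -/
theorem phi_le {ι : Type} [Fintype ι] {R : ℕ} {χ : ι → F[X] → ℂ} (hF : Fam R χ) (c : ι → ℂ)
    (f : F[X]) : ‖phi χ c f‖ ^ 2 ≤ Fintype.card ι * nsq c := by
  have h1 : ‖phi χ c f‖ ≤ ∑ i, 1 * ‖c i‖ := by
    unfold phi
    refine (norm_sum_le _ _).trans (Finset.sum_le_sum fun i _ => ?_)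
    rw [norm_mul, one_mul]
    exact mul_le_of_le_one_right (norm_nonneg _) (fam_le hF i f)
  have h2 : (∑ i, 1 * ‖c i‖) ^ 2 ≤ (∑ i : ι, (1 : ℝ) ^ 2) * ∑ i, ‖c i‖ ^ 2 :=
    Finset.sum_mul_sq_le_sq_mul_sq _ _ _
  have h3 : ‖phi χ c f‖ ^ 2 ≤ (∑ i, 1 * ‖c i‖) ^ 2 := pow_le_pow_left₀ (norm_nonneg _) h1 2
  refine h3.trans (h2.trans (le_of_eq ?_))
  unfold nsq
  simp

/-- a polynomial of degree `2R` prime to `Q` -/
theorem exists_cop {Q : F[X]} {R : ℕ} (hQ : Q.Monic) (hR : Q.natDegree ≤ R) :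
    ∃ f : F[X], f.Monic ∧ f.natDegree = 2 * R ∧ IsCoprime f Q := by
  rcases Nat.eq_zero_or_pos R with h | h
  · subst h
    refine ⟨1, monic_one, by simp, isCoprime_one_left⟩
  · have hd : (Q * X ^ (2 * R - Q.natDegree)).natDegree = 2 * R := by
      rw [hQ.natDegree_mul (monic_X_pow _), natDegree_X_pow]
      omega
    have hm : (Q * X ^ (2 * R - Q.natDegree)).Monic := hQ.mul (monic_X_pow _)
    have hlt : (1 : F[X]).degree < (Q * X ^ (2 * R - Q.natDegree)).degree := by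
      rw [degree_one, degree_eq_natDegree hm.ne_zero, hd]
      exact_mod_cast (by omega : 0 < 2 * R)
    refine ⟨Q * X ^ (2 * R - Q.natDegree) + 1, hm.add_of_left hlt, ?_, ?_⟩
    · rw [natDegree_add_eq_left_of_degree_lt hlt, hd]
    · refine ⟨1, -X ^ (2 * R - Q.natDegree), ?_⟩
      ring

/-- the number of the characters -/
theorem card_fam [Fintype F] (hHC : S_HC) (hVAN : S_VAN) (hCM : S_CMON) {R : ℕ} {ι : Type}
    [Fintype ι] {χ : ι → F[X] → ℂ} (hF : Fam R χ) : (Fintype.card ι : ℝ) ≤ qq F ^ (2 * R) := by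
  classical
  have hinj : ∀ c : ι → ℂ, (∀ f ∈ Mon F (2 * R), phi χ c f = 0) → c = 0 := by
    intro c hc
    have h1 := star hHC hVAN hF c 1 (2 * R) monic_one (by simp)
    have h2 : (Mon F (2 * R)).filter (fun f => (1 : F[X]) ∣ f) = Mon F (2 * R) :=
      Finset.filter_true_of_mem fun f _ => one_dvd f
    rw [h2] at h1
    have h3 : ∑ f ∈ Mon F (2 * R), ‖phi χ c f‖ ^ 2 = 0 :=
      Finset.sum_eq_zero fun f hf => by rw [hc f hf]; simp
    rw [h3] at h1
    have h4 := (Finset.sum_eq_zero_iff_of_nonneg (fun i _ => mul_nonneg (by positivity)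
      (Finset.sum_nonneg fun f _ => by positivity))).1 h1.symm
    funext i
    have h5 := h4 i (Finset.mem_univ i)
    obtain ⟨Q, l, hQ, hR⟩ := hF.lev i
    obtain ⟨f, hf1, hf2, hf3⟩ := exists_cop hQ.monic (by omega : Q.natDegree ≤ R)
    have h6 : 0 < ∑ f ∈ Mon F (2 * R), ‖χ i f‖ ^ 2 := by
      refine Finset.sum_pos' (fun f _ => by positivity) ⟨f, mem_Mon.2 ⟨hf1, hf2⟩, ?_⟩
      rw [hQ.norm f hf1 hf3]
      norm_num
    have h7 := (mul_eq_zero.1 h5).resolve_right h6.ne'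
    simpa using h7
  let T : (ι → ℂ) →ₗ[ℂ] (Mon F (2 * R) → ℂ) :=
    { toFun := fun c f => phi χ c f.1
      map_add' := by
        intro c c'
        funext f
        simp [phi, add_mul, Finset.sum_add_distrib]
      map_smul' := by
        intro a c
        funext f
        simp [phi, Finset.mul_sum, mul_assoc] }
  have hT : Function.Injective T := by
    rw [injective_iff_map_eq_zero]
    intro c hc
    exact hinj c fun f hf => congrFun hc ⟨f, hf⟩
  have h1 := LinearMap.finrank_le_finrank_of_injective hT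
  rw [Module.finrank_fintype_fun_eq_card, Module.finrank_fintype_fun_eq_card, Fintype.card_coe,
    (hCM F).1] at h1
  unfold qq
  exact_mod_cast h1

theorem two_le_qq [Fintype F] : 2 ≤ qq F := by
  unfold qq
  exact_mod_cast Fintype.one_lt_card (α := F)

theorem sq_le (k : ℕ) (q : ℝ) (hq : 2 ≤ q) :
    (k : ℝ) ^ 2 * q ^ ((5 : ℝ) * k / 8) ≤ 1024 * q ^ k := by
  have hq0 : 0 < q := by linarith
  have hk : (0 : ℝ) ≤ k := Nat.cast_nonneg k
  have h1 : (k : ℝ) * (3 / 32) ≤ q ^ ((3 : ℝ) * k / 16) := by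
    have h2 : (2 : ℝ) ^ ((3 : ℝ) * k / 16) ≤ q ^ ((3 : ℝ) * k / 16) :=
      Real.rpow_le_rpow (by norm_num) hq (by positivity)
    refine le_trans ?_ h2
    rw [Real.rpow_def_of_pos (by norm_num)]
    have h3 := Real.add_one_le_exp (Real.log 2 * ((3 : ℝ) * k / 16))
    have h4 : (1 / 2 : ℝ) ≤ Real.log 2 := by
      have := Real.log_two_gt_d9
      linarith
    nlinarith [mul_nonneg hk (sub_nonneg.2 h4)]
  have h5 : (q ^ ((3 : ℝ) * k / 16)) ^ 2 = q ^ ((3 : ℝ) * k / 8) := by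
    rw [← Real.rpow_natCast, ← Real.rpow_mul hq0.le]
    congr 1
    push_cast
    ring
  have h6 : ((k : ℝ) * (3 / 32)) ^ 2 ≤ q ^ ((3 : ℝ) * k / 8) := by
    rw [← h5]
    exact pow_le_pow_left₀ (by positivity) h1 2
  have h7 : (k : ℝ) ^ 2 ≤ 1024 * q ^ ((3 : ℝ) * k / 8) := by nlinarith
  have h8 : q ^ ((3 : ℝ) * k / 8) * q ^ ((5 : ℝ) * k / 8) = q ^ k := by
    rw [← Real.rpow_add hq0, ← Real.rpow_natCast]
    congr 1
    ring
  have h9 : 0 ≤ q ^ ((5 : ℝ) * k / 8) := by positivity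
  calc (k : ℝ) ^ 2 * q ^ ((5 : ℝ) * k / 8) ≤
      (1024 * q ^ ((3 : ℝ) * k / 8)) * q ^ ((5 : ℝ) * k / 8) := mul_le_mul_of_nonneg_right h7 h9
    _ = 1024 * (q ^ ((3 : ℝ) * k / 8) * q ^ ((5 : ℝ) * k / 8)) := by ring
    _ = 1024 * q ^ k := by rw [h8]

open Classical in
/-- the second claim -/
theorem ab2 [Fintype F] (hHC : S_HC) (hVAN : S_VAN) (hCM : S_CMON) (hCPR : S_CPR) {R : ℕ}
    {ι : Type} [Fintype ι] {χ : ι → F[X] → ℂ} (hF : Fam R χ) (y : ℕ) (hy : 1 ≤ y)
    (hyR : 8 * R ≤ y) (k : ℕ) (hk : 1 ≤ k) (c : ι → ℂ) :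
    ∑ P ∈ (PD F k).filter (fun P => y < P.natDegree ∧ P.natDegree < k),
      (P.natDegree : ℝ) * ‖phi χ c (P ^ (k / P.natDegree))‖ ^ 2 ≤
        k ^ 2 * qq F ^ ((5 : ℝ) * k / 8) * nsq c := by
  have hq2 := two_le_qq (F := F)
  have hq0 : 0 < qq F := by linarith
  have hn : 0 ≤ nsq c := by unfold nsq; positivity
  have hcard := card_fam hHC hVAN hCM hF
  -- every term
  have h1 : ∑ P ∈ (PD F k).filter (fun P => y < P.natDegree ∧ P.natDegree < k),
      (P.natDegree : ℝ) * ‖phi χ c (P ^ (k / P.natDegree))‖ ^ 2 ≤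
      ∑ P ∈ (PD F k).filter (fun P => y < P.natDegree ∧ P.natDegree < k),
      (P.natDegree : ℝ) * (qq F ^ (2 * R) * nsq c) := by
    refine Finset.sum_le_sum fun P _ => mul_le_mul_of_nonneg_left ?_ (Nat.cast_nonneg _)
    exact (phi_le hF c _).trans (mul_le_mul_of_nonneg_right hcard hn)
  refine h1.trans ?_
  rw [← Finset.sum_mul]
  by_cases hex : ∃ m, m ∣ k ∧ y < m ∧ m < k
  · obtain ⟨m₀, hm1, hm2, hm3⟩ := hex
    have hk2 : 2 * m₀ ≤ k := by
      obtain ⟨e, he⟩ := hm1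
      rcases e with _ | _ | e
      · omega
      · omega
      · nlinarith
    -- sum over the degrees
    have h2 : ∑ P ∈ (PD F k).filter (fun P => y < P.natDegree ∧ P.natDegree < k),
        (P.natDegree : ℝ) ≤ ∑ m ∈ Finset.range k, qq F ^ ((k : ℝ) / 2) := by
      have h3 : ∑ P ∈ (PD F k).filter (fun P => y < P.natDegree ∧ P.natDegree < k),
        (P.natDegree : ℝ) = ∑ m ∈ Finset.range k,
          ∑ P ∈ ((PD F k).filter (fun P => y < P.natDegree ∧ P.natDegree < k)).filter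
            (fun P => P.natDegree = m), (P.natDegree : ℝ) := by
        rw [Finset.sum_fiberwise_of_maps_to]
        intro P hP
        exact Finset.mem_range.2 (Finset.mem_filter.1 hP).2.2
      rw [h3]
      refine Finset.sum_le_sum fun m hm => ?_
      by_cases hm1 : 1 ≤ m ∧ 2 * m ≤ k
      · have h4 : ∑ P ∈ ((PD F k).filter (fun P => y < P.natDegree ∧ P.natDegree < k)).filter
            (fun P => P.natDegree = m), (P.natDegree : ℝ) ≤ ∑ P ∈ PD F m, (P.natDegree : ℝ) := by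
          refine Finset.sum_le_sum_of_subset_of_nonneg ?_ (fun _ _ _ => Nat.cast_nonneg _)
          intro P hP
          rw [Finset.mem_filter, Finset.mem_filter] at hP
          have h5 := (mem_PD hk).1 hP.1.1
          exact (mem_PD hm1.1).2 ⟨h5.1, h5.2.1, by rw [hP.2]⟩
        refine h4.trans ?_
        have h6 := hCPR F m hm1.1
        have h7 : ∑ P ∈ PD F m, (P.natDegree : ℝ) = qq F ^ m := by
          unfold qq
          exact_mod_cast h6
        rw [h7, ← Real.rpow_natCast]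
        refine Real.rpow_le_rpow_of_exponent_le (by linarith) ?_
        have : (2 : ℝ) * m ≤ k := by exact_mod_cast hm1.2
        linarith
      · have h4 : ((PD F k).filter (fun P => y < P.natDegree ∧ P.natDegree < k)).filter
            (fun P => P.natDegree = m) = ∅ := by
          rw [Finset.eq_empty_iff_forall_notMem]
          intro P hP
          rw [Finset.mem_filter, Finset.mem_filter] at hP
          have h5 := (mem_PD hk).1 hP.1.1
          apply hm1
          refine ⟨by have := hP.1.2.1; omega, ?_⟩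
          obtain ⟨e, he⟩ := h5.2.2
          rw [hP.2] at he
          have h6 := hP.1.2.2
          rw [hP.2] at h6
          rcases e with _ | _ | e
          · omega
          · omega
          · nlinarith
        rw [h4, Finset.sum_empty]
        positivity
    rw [Finset.sum_const, Finset.card_range, nsmul_eq_mul] at h2
    have h8 : qq F ^ (2 * R) ≤ qq F ^ ((k : ℝ) / 8) := by
      rw [← Real.rpow_natCast]
      refine Real.rpow_le_rpow_of_exponent_le (by linarith) ?_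
      have h9 : 16 * R ≤ k := by omega
      have : (16 : ℝ) * R ≤ k := by exact_mod_cast h9
      push_cast
      linarith
    have h10 : qq F ^ ((k : ℝ) / 2) * qq F ^ ((k : ℝ) / 8) = qq F ^ ((5 : ℝ) * k / 8) := by
      rw [← Real.rpow_add hq0]
      congr 1
      ring
    have hk1 : (1 : ℝ) ≤ k := by exact_mod_cast hk
    calc (∑ P ∈ (PD F k).filter (fun P => y < P.natDegree ∧ P.natDegree < k),
          (P.natDegree : ℝ)) * (qq F ^ (2 * R) * nsq c) ≤
          (k * qq F ^ ((k : ℝ) / 2)) * (qq F ^ ((k : ℝ) / 8) * nsq c) := by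
          refine mul_le_mul h2 (mul_le_mul_of_nonneg_right h8 hn) ?_ ?_
          · positivity
          · positivity
      _ = k * (qq F ^ ((5 : ℝ) * k / 8) * nsq c) := by rw [← h10]; ring
      _ ≤ k ^ 2 * (qq F ^ ((5 : ℝ) * k / 8) * nsq c) := by
          refine mul_le_mul_of_nonneg_right ?_ (by positivity)
          nlinarith
      _ = _ := by ring
  · have h4 : (PD F k).filter (fun P => y < P.natDegree ∧ P.natDegree < k) = ∅ := by
      rw [Finset.eq_empty_iff_forall_notMem]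
      intro P hP
      rw [Finset.mem_filter] at hP
      exact hex ⟨P.natDegree, ((mem_PD hk).1 hP.1).2.2, hP.2.1, hP.2.2⟩
    rw [h4, Finset.sum_empty, zero_mul]
    positivity

open Classical in
/-- primes of degree `k` -/
theorem ab1 [Fintype F] (hHC : S_HC) (hVAN : S_VAN) {C : ℝ} (hC : 0 < C) {R : ℕ}
    {ι : Type} [Fintype ι] {χ : ι → F[X] → ℂ}
    (hUP : ∀ (k : ℕ) (c : ι → ℂ),
      (2 * R ≤ k → ∑ f ∈ Mon F k, ‖phi χ c f‖ ^ 2 ≤ qq F ^ k * nsq c) ∧
      ∀ y : ℕ, 1 ≤ y → 10 * y + 2 * R ≤ k →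
        ∑ f ∈ Ro F y k, ‖phi χ c f‖ ^ 2 ≤ C / y * qq F ^ k * nsq c)
    (k : ℕ) (hk : 1 ≤ k) (hkR : 8 * R ≤ k) (c : ι → ℂ) (S : Finset F[X])
    (hS : ∀ P ∈ S, P.Monic ∧ Irreducible P ∧ P.natDegree = k) :
    ∑ P ∈ S, (k : ℝ) * ‖phi χ c P‖ ^ 2 ≤ (30 + 60 * C) * qq F ^ k * nsq c := by
  have hq0 := qq_pos (F := F)
  have hn : 0 ≤ nsq c := by unfold nsq; positivity
  rw [← Finset.mul_sum]
  by_cases h30 : k < 30
  · have h1 : ∑ P ∈ S, ‖phi χ c P‖ ^ 2 ≤ ∑ f ∈ Mon F k, ‖phi χ c f‖ ^ 2 := by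
      refine Finset.sum_le_sum_of_subset_of_nonneg ?_ (fun _ _ _ => by positivity)
      intro P hP
      obtain ⟨h1, _, h3⟩ := hS P hP
      exact mem_Mon.2 ⟨h1, h3⟩
    have h2 := h1.trans ((hUP k c).1 (by omega))
    have h3 : (k : ℝ) ≤ 30 := by exact_mod_cast h30.le
    calc (k : ℝ) * ∑ P ∈ S, ‖phi χ c P‖ ^ 2 ≤ 30 * (qq F ^ k * nsq c) :=
          mul_le_mul h3 h2 (Finset.sum_nonneg fun _ _ => by positivity) (by norm_num)
      _ ≤ (30 + 60 * C) * (qq F ^ k * nsq c) := by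
          refine mul_le_mul_of_nonneg_right ?_ (by positivity)
          linarith
      _ = _ := by ring
  · have hy1 : 1 ≤ k / 30 := by omega
    have h1 : ∑ P ∈ S, ‖phi χ c P‖ ^ 2 ≤ ∑ f ∈ Ro F (k / 30) k, ‖phi χ c f‖ ^ 2 := by
      refine Finset.sum_le_sum_of_subset_of_nonneg ?_ (fun _ _ _ => by positivity)
      intro P hP
      obtain ⟨h1, h2, h3⟩ := hS P hP
      unfold Ro
      rw [Finset.mem_filter]
      refine ⟨mem_Mon.2 ⟨h1, h3⟩, ?_⟩
      intro P' hP'1 hP'2 hP'3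
      have h4 : Associated P' P := hP'2.associated_of_dvd h2 hP'3
      rw [eq_of_monic_of_associated hP'1 h1 h4, h3]
      omega
    have h2 := h1.trans ((hUP k c).2 (k / 30) hy1 (by omega))
    have h3 : (k : ℝ) ≤ 60 * ((k / 30 : ℕ) : ℝ) := by
      have : k ≤ 60 * (k / 30) := by omega
      exact_mod_cast this
    have h4 : (0 : ℝ) < ((k / 30 : ℕ) : ℝ) := by exact_mod_cast hy1
    calc (k : ℝ) * ∑ P ∈ S, ‖phi χ c P‖ ^ 2 ≤
          (60 * ((k / 30 : ℕ) : ℝ)) * (C / ((k / 30 : ℕ) : ℝ) * qq F ^ k * nsq c) :=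
          mul_le_mul h3 h2 (Finset.sum_nonneg fun _ _ => by positivity) (by positivity)
      _ = 60 * C * (qq F ^ k * nsq c) := by field_simp
      _ ≤ (30 + 60 * C) * (qq F ^ k * nsq c) := by
          refine mul_le_mul_of_nonneg_right ?_ (by positivity)
          linarith
      _ = _ := by ring

theorem t_AB (hHC : S_HC) (hVAN : S_VAN) (hCM : S_CMON) (hCPR : S_CPR) (hUP : S_UP) : S_AB := by
  classical
  obtain ⟨C, hC, hU⟩ := hUP
  refine ⟨30 + 60 * C + 1024, by positivity, ?_⟩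
  intro F _ _ R y ι _ χ hF hy hyR k hk c
  have hq2 := two_le_qq (F := F)
  have hq0 := qq_pos (F := F)
  have hn : 0 ≤ nsq c := by unfold nsq; positivity
  have hab2 := ab2 hHC hVAN hCM hCPR hF y hy hyR k hk c
  refine ⟨?_, by convert hab2⟩
  have hsplit : ∑ P ∈ (PD F k).filter (fun P => y < P.natDegree),
      (P.natDegree : ℝ) * ‖phi χ c (P ^ (k / P.natDegree))‖ ^ 2 =
      ∑ P ∈ (PD F k).filter (fun P => y < P.natDegree ∧ P.natDegree < k),
        (P.natDegree : ℝ) * ‖phi χ c (P ^ (k / P.natDegree))‖ ^ 2 +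
      ∑ P ∈ (PD F k).filter (fun P => y < P.natDegree ∧ P.natDegree = k),
        (P.natDegree : ℝ) * ‖phi χ c (P ^ (k / P.natDegree))‖ ^ 2 := by
    rw [← Finset.sum_union]
    · refine Finset.sum_congr ?_ fun _ _ => rfl
      ext P
      simp only [Finset.mem_filter, Finset.mem_union]
      constructor
      · rintro ⟨h1, h2⟩
        have h3 := Nat.le_of_dvd hk ((mem_PD hk).1 h1).2.2
        rcases lt_or_eq_of_le h3 with h4 | h4
        · exact Or.inl ⟨h1, h2, h4⟩
        · exact Or.inr ⟨h1, h2, h4⟩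
      · rintro (⟨h1, h2, _⟩ | ⟨h1, h2, _⟩)
        · exact ⟨h1, h2⟩
        · exact ⟨h1, h2⟩
    · rw [Finset.disjoint_left]
      intro P h1 h2
      rw [Finset.mem_filter] at h1 h2
      omega
  have h1 : ∑ P ∈ (PD F k).filter (fun P => y < P.natDegree ∧ P.natDegree = k),
        (P.natDegree : ℝ) * ‖phi χ c (P ^ (k / P.natDegree))‖ ^ 2 ≤
      (30 + 60 * C) * qq F ^ k * nsq c := by
    by_cases hkR : 8 * R ≤ k
    · have h2 := ab1 (F := F) hHC hVAN hC (fun k c => hU F R ι χ hF k c) k hk hkR c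
        ((PD F k).filter (fun P => y < P.natDegree ∧ P.natDegree = k)) (by
          intro P hP
          rw [Finset.mem_filter] at hP
          have h3 := (mem_PD hk).1 hP.1
          exact ⟨h3.1, h3.2.1, hP.2.2⟩)
      refine le_trans (le_of_eq ?_) h2
      refine Finset.sum_congr rfl fun P hP => ?_
      rw [Finset.mem_filter] at hP
      rw [hP.2.2, Nat.div_self (by omega), pow_one]
    · have h4 : (PD F k).filter (fun P => y < P.natDegree ∧ P.natDegree = k) = ∅ := by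
        rw [Finset.eq_empty_iff_forall_notMem]
        intro P hP
        rw [Finset.mem_filter] at hP
        omega
      rw [h4, Finset.sum_empty]
      positivity
  have h2 : (k : ℝ) ^ 2 * qq F ^ ((5 : ℝ) * k / 8) * nsq c ≤ 1024 * qq F ^ k * nsq c :=
    mul_le_mul_of_nonneg_right (sq_le k (qq F) hq2) hn
  rw [hsplit]
  calc _ ≤ (k : ℝ) ^ 2 * qq F ^ ((5 : ℝ) * k / 8) * nsq c + (30 + 60 * C) * qq F ^ k * nsq c :=
        add_le_add hab2 h1
    _ ≤ 1024 * qq F ^ k * nsq c + (30 + 60 * C) * qq F ^ k * nsq c := by linarith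
    _ = _ := by ring

end

end Pool.Agent.Q184.PS
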