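import Pool.Agent.Q284.PS.Stm

/-!
# JOB PS-UP (helper184)
-/

set_option autoImplicit false

open Finset Polynomial ComplexConjugate
open Pool.Agent.H341R2.Sharp (Mon mem_Mon)

namespace Pool.Agent.Q184.PS

open Pool.Agent.Q284.PS

section

variable {F : Type} [Field F]

theorem chi_le {Q : F[X]} {l : ℕ} {χ : F[X] → ℂ} (h : Hay Q l χ) (f : F[X]) : ‖χ f‖ ≤ 1 := by
  by_cases hm : f.Monic
  · by_cases hc : IsCoprime f Q
    · rw [h.norm f hm hc]
    · rw [h.zero f hm hc]; simp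
  · rw [h.off f hm]; simp

theorem fam_le {R : ℕ} {ι : Type} {χ : ι → F[X] → ℂ} (h : Fam R χ) (i : ι) (f : F[X]) :
    ‖χ i f‖ ≤ 1 := by
  obtain ⟨Q, l, hQ, _⟩ := h.lev i
  exact chi_le hQ f

theorem chi_norm {Q : F[X]} {l : ℕ} {χ : F[X] → ℂ} (h : Hay Q l χ) {f : F[X]} (hf : f.Monic)
    (h0 : χ f ≠ 0) : ‖χ f‖ = 1 := by
  by_cases hc : IsCoprime f Q
  · exact h.norm f hf hc
  · exact absurd (h.zero f hf hc) h0

open Classical in
theorem cross [Fintype F] (hHC : S_HC) (hVAN : S_VAN) {R : ℕ} {ι : Type} {χ : ι → F[X] → ℂ}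
    (hF : Fam R χ) (i j : ι) (hij : i ≠ j) (d : F[X]) (k : ℕ) (hd : d.Monic)
    (hk : d.natDegree + 2 * R ≤ k) :
    ∑ f ∈ (Mon F k).filter (fun f => d ∣ f), χ i f * conj (χ j f) = 0 := by
  obtain ⟨Q, l, hQ, hR⟩ := hF.lev i
  obtain ⟨Q', l', hQ', hR'⟩ := hF.lev j
  have h1 := (hHC F Q Q' l l' (χ i) (χ j) hQ hQ').1
  obtain ⟨h, hm, hi, hj, hne⟩ := hF.sep i j hij
  refine hVAN F (Q * Q') (max l l') _ h1 ⟨h, hm, ?_, ?_⟩ d k hd ?_
  · exact mul_ne_zero hi ((_root_.map_ne_zero _).2 hj)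
  · intro he
    apply hne
    have h2 : conj (χ j h) * χ j h = 1 := by
      rw [Complex.conj_mul', chi_norm hQ' hm hj]
      simp
    calc χ i h = χ i h * (conj (χ j h) * χ j h) := by rw [h2, mul_one]
      _ = (χ i h * conj (χ j h)) * χ j h := by ring
      _ = χ j h := by rw [he, one_mul]
  · have h3 : (Q * Q').natDegree = Q.natDegree + Q'.natDegree :=
      hQ.monic.natDegree_mul hQ'.monic
    rw [h3]
    have h4 : max l l' ≤ l + l' := max_le (Nat.le_add_right _ _) (Nat.le_add_left _ _)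
    omega

theorem phi_sq {ι : Type} [Fintype ι] (χ : ι → F[X] → ℂ) (c : ι → ℂ) (f : F[X]) :
    ((‖phi χ c f‖ ^ 2 : ℝ) : ℂ) = ∑ i, ∑ j, c i * conj (c j) * (χ i f * conj (χ j f)) := by
  have h1 : ((‖phi χ c f‖ ^ 2 : ℝ) : ℂ) = phi χ c f * conj (phi χ c f) := by
    rw [Complex.mul_conj']
    push_cast
    rfl
  rw [h1]
  unfold phi
  rw [map_sum, Finset.sum_mul_sum]
  refine Finset.sum_congr rfl fun i _ => Finset.sum_congr rfl fun j _ => ?_
  rw [map_mul]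
  ring

open Classical in
theorem star [Fintype F] (hHC : S_HC) (hVAN : S_VAN) {R : ℕ} {ι : Type} [Fintype ι]
    {χ : ι → F[X] → ℂ} (hF : Fam R χ) (c : ι → ℂ) (d : F[X]) (k : ℕ) (hd : d.Monic)
    (hk : d.natDegree + 2 * R ≤ k) :
    ∑ f ∈ (Mon F k).filter (fun f => d ∣ f), ‖phi χ c f‖ ^ 2 =
      ∑ i, ‖c i‖ ^ 2 * ∑ f ∈ (Mon F k).filter (fun f => d ∣ f), ‖χ i f‖ ^ 2 := by
  have h1 : ((∑ f ∈ (Mon F k).filter (fun f => d ∣ f), ‖phi χ c f‖ ^ 2 : ℝ) : ℂ) =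
      ((∑ i, ‖c i‖ ^ 2 * ∑ f ∈ (Mon F k).filter (fun f => d ∣ f), ‖χ i f‖ ^ 2 : ℝ) : ℂ) := by
    rw [Complex.ofReal_sum, Complex.ofReal_sum]
    have h2 : ∀ f : F[X], ((‖phi χ c f‖ ^ 2 : ℝ) : ℂ) =
        ∑ i, ∑ j, c i * conj (c j) * (χ i f * conj (χ j f)) := phi_sq χ c
    rw [Finset.sum_congr rfl fun f _ => h2 f, Finset.sum_comm]
    refine Finset.sum_congr rfl fun i _ => ?_
    rw [Finset.sum_comm, Finset.sum_eq_single i]
    · rw [← Finset.mul_sum, Complex.ofReal_mul, Complex.ofReal_sum, Complex.mul_conj']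
      push_cast
      congr 1
      refine Finset.sum_congr rfl fun f _ => ?_
      rw [Complex.mul_conj']
    · intro j _ hj
      rw [← Finset.mul_sum, cross hHC hVAN hF i j (Ne.symm hj) d k hd hk, mul_zero]
    · intro h; exact absurd (Finset.mem_univ _) h
  exact_mod_cast h1

theorem mem_UB [Fintype F] {D : ℕ} {d : F[X]} : d ∈ UB F D ↔ d.Monic ∧ d.natDegree ≤ D := by
  classical
  unfold UB
  rw [Finset.mem_biUnion]
  constructor
  · rintro ⟨n, hn, hd⟩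
    rw [mem_Mon] at hd
    exact ⟨hd.1, by rw [hd.2]; exact Nat.lt_succ_iff.1 (Finset.mem_range.1 hn)⟩
  · rintro ⟨h1, h2⟩
    exact ⟨d.natDegree, Finset.mem_range.2 (Nat.lt_succ_of_le h2), mem_Mon.2 ⟨h1, rfl⟩⟩

theorem qq_pos [Fintype F] : 0 < qq F := by
  unfold qq
  exact_mod_cast Fintype.card_pos

open Classical in
/-- exchange of the sums for divisor weights -/
theorem exch [Fintype F] (D k : ℕ) (ν g : F[X] → ℝ) :
    ∑ f ∈ Mon F k, (∑ d ∈ (UB F D).filter (fun d => d ∣ f), ν d) * g f =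
      ∑ d ∈ UB F D, ν d * ∑ f ∈ (Mon F k).filter (fun f => d ∣ f), g f := by
  have h1 : ∀ f, (∑ d ∈ (UB F D).filter (fun d => d ∣ f), ν d) * g f =
      ∑ d ∈ UB F D, if d ∣ f then ν d * g f else 0 := by
    intro f
    rw [Finset.sum_filter, Finset.sum_mul]
    refine Finset.sum_congr rfl fun d _ => ?_
    split_ifs <;> simp
  rw [Finset.sum_congr rfl fun f _ => h1 f, Finset.sum_comm]
  refine Finset.sum_congr rfl fun d _ => ?_
  rw [Finset.sum_filter, Finset.mul_sum]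
  refine Finset.sum_congr rfl fun f _ => ?_
  split_ifs <;> simp

open Classical in
/-- the formula for divisor weights -/
theorem starW [Fintype F] (hHC : S_HC) (hVAN : S_VAN) {R : ℕ} {ι : Type} [Fintype ι]
    {χ : ι → F[X] → ℂ} (hF : Fam R χ) (c : ι → ℂ) (D k : ℕ) (hk : D + 2 * R ≤ k) (ν : F[X] → ℝ) :
    ∑ f ∈ Mon F k, (∑ d ∈ (UB F D).filter (fun d => d ∣ f), ν d) * ‖phi χ c f‖ ^ 2 =
      ∑ i, ‖c i‖ ^ 2 * ∑ f ∈ Mon F k, (∑ d ∈ (UB F D).filter (fun d => d ∣ f), ν d) *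
        ‖χ i f‖ ^ 2 := by
  rw [exch]
  have h1 : ∀ d ∈ UB F D, ν d * ∑ f ∈ (Mon F k).filter (fun f => d ∣ f), ‖phi χ c f‖ ^ 2 =
      ∑ i, ‖c i‖ ^ 2 * (ν d * ∑ f ∈ (Mon F k).filter (fun f => d ∣ f), ‖χ i f‖ ^ 2) := by
    intro d hd
    rw [mem_UB] at hd
    rw [star hHC hVAN hF c d k hd.1 (by omega), Finset.mul_sum]
    refine Finset.sum_congr rfl fun i _ => ?_
    ring
  rw [Finset.sum_congr rfl h1, Finset.sum_comm]
  refine Finset.sum_congr rfl fun i _ => ?_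
  rw [← Finset.mul_sum, exch]

open Classical in
/-- the mean of divisor weights -/
theorem meanW [Fintype F] (hC : S_CMON) (D k : ℕ) (hk : D ≤ k) (ν : F[X] → ℝ) :
    ∑ f ∈ Mon F k, (∑ d ∈ (UB F D).filter (fun d => d ∣ f), ν d) =
      qq F ^ k * ∑ d ∈ UB F D, ν d / qq F ^ d.natDegree := by
  have h0 := exch (F := F) D k ν (fun _ => 1)
  simp only [mul_one] at h0
  rw [h0, Finset.mul_sum]
  refine Finset.sum_congr rfl fun d hd => ?_
  rw [mem_UB] at hd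
  have h1 := (hC F).2 d k hd.1 (by omega)
  rw [Finset.sum_const, nsmul_eq_mul, mul_one, h1]
  have hq := qq_pos (F := F)
  obtain ⟨j, hj⟩ : ∃ j, k = d.natDegree + j := ⟨k - d.natDegree, by omega⟩
  rw [hj, Nat.add_sub_cancel_left, pow_add]
  unfold qq at hq ⊢
  push_cast
  field_simp

theorem t_UP (hHC : S_HC) (hVAN : S_VAN) (hCM : S_CMON) (hBH : S_BH) : S_UP := by
  classical
  obtain ⟨C, hC, hB⟩ := hBH
  refine ⟨C, hC, ?_⟩
  intro F _ _ R ι _ χ hF k c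
  have hq := qq_pos (F := F)
  constructor
  · intro hk
    have h1 := star hHC hVAN hF c 1 k monic_one (by simpa using hk)
    have h2 : (Mon F k).filter (fun f => (1 : F[X]) ∣ f) = Mon F k :=
      Finset.filter_true_of_mem fun f _ => one_dvd f
    rw [h2] at h1
    rw [h1]
    have h3 : ∀ i, ∑ f ∈ Mon F k, ‖χ i f‖ ^ 2 ≤ qq F ^ k := by
      intro i
      have h4 : ∑ f ∈ Mon F k, ‖χ i f‖ ^ 2 ≤ ∑ f ∈ Mon F k, (1 : ℝ) := by
        refine Finset.sum_le_sum fun f _ => ?_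
        exact pow_le_one₀ (norm_nonneg _) (fam_le hF i f)
      refine h4.trans (le_of_eq ?_)
      rw [Finset.sum_const, nsmul_eq_mul, mul_one, (hCM F).1 k]
      unfold qq
      push_cast
      rfl
    calc ∑ i, ‖c i‖ ^ 2 * ∑ f ∈ Mon F k, ‖χ i f‖ ^ 2 ≤ ∑ i, ‖c i‖ ^ 2 * qq F ^ k := by
          refine Finset.sum_le_sum fun i _ => mul_le_mul_of_nonneg_left (h3 i) (by positivity)
      _ = qq F ^ k * nsq c := by
          unfold nsq
          rw [← Finset.sum_mul, mul_comm]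
  · intro y hy hk
    obtain ⟨nu1, nu2, h1, h2, h3⟩ := hB F y 1 hy le_rfl
    rw [show 10 * 1 * y = 10 * y by ring] at h1 h3
    have hlam : ∀ f : F[X], f.Monic → (if Rough y f then (1 : ℝ) else 0) ≤
        ∑ d ∈ (UB F (10 * y)).filter (fun d => d ∣ f), nu2 d := fun f hf => (h1 f hf).2
    have hlam0 : ∀ f ∈ Mon F k, 0 ≤ ∑ d ∈ (UB F (10 * y)).filter (fun d => d ∣ f), nu2 d := by
      intro f hf
      refine le_trans ?_ (hlam f (mem_Mon.1 hf).1)
      split_ifs <;> norm_num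
    have e1 : ∑ f ∈ Ro F y k, ‖phi χ c f‖ ^ 2 ≤
        ∑ f ∈ Mon F k, (∑ d ∈ (UB F (10 * y)).filter (fun d => d ∣ f), nu2 d) *
          ‖phi χ c f‖ ^ 2 := by
      unfold Ro
      rw [Finset.sum_filter]
      refine Finset.sum_le_sum fun f hf => ?_
      have h4 := hlam f (mem_Mon.1 hf).1
      have h5 : 0 ≤ ‖phi χ c f‖ ^ 2 := by positivity
      have h6 := mul_le_mul_of_nonneg_right h4 h5
      refine le_trans (le_of_eq ?_) h6
      split_ifs <;> simp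
    refine e1.trans ?_
    rw [starW hHC hVAN hF c (10 * y) k (by omega) nu2]
    have e2 : ∀ i, ∑ f ∈ Mon F k, (∑ d ∈ (UB F (10 * y)).filter (fun d => d ∣ f), nu2 d) *
        ‖χ i f‖ ^ 2 ≤ C / y * qq F ^ k := by
      intro i
      have h4 : ∑ f ∈ Mon F k, (∑ d ∈ (UB F (10 * y)).filter (fun d => d ∣ f), nu2 d) *
        ‖χ i f‖ ^ 2 ≤ ∑ f ∈ Mon F k, (∑ d ∈ (UB F (10 * y)).filter (fun d => d ∣ f), nu2 d) := by
        refine Finset.sum_le_sum fun f hf => ?_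
        exact mul_le_of_le_one_right (hlam0 f hf) (pow_le_one₀ (norm_nonneg _) (fam_le hF i f))
      refine h4.trans ?_
      rw [meanW hCM (10 * y) k (by omega) nu2, mul_comm]
      exact mul_le_mul_of_nonneg_right h3 (by positivity)
    calc ∑ i, ‖c i‖ ^ 2 * ∑ f ∈ Mon F k,
          (∑ d ∈ (UB F (10 * y)).filter (fun d => d ∣ f), nu2 d) * ‖χ i f‖ ^ 2 ≤
          ∑ i, ‖c i‖ ^ 2 * (C / y * qq F ^ k) := by
          refine Finset.sum_le_sum fun i _ => mul_le_mul_of_nonneg_left (e2 i) (by positivity)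
      _ = C / y * qq F ^ k * nsq c := by
          unfold nsq
          rw [← Finset.sum_mul, mul_comm]

end

end Pool.Agent.Q184.PS
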